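import Mathlib

/-!
# The primes above given primes and the discriminant of a relative extension
-/

set_option autoImplicit false

namespace Pool.Agent.N365.FH

open NumberField IsDedekindDomain UniqueFactorizationMonoid

section
variable (K L : Type) [Field K] [NumberField K] [Field L] [NumberField L] [Algebra K L]

/-- the norm of the different -/
theorem log_diff : Real.log (Ideal.absNorm (differentIdeal (𝓞 K) (𝓞 L)) : ℝ) =
    Real.log |(discr L : ℝ)| - Module.finrank K L * Real.log |(discr K : ℝ)| := by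
  have h := natAbs_discr_eq_absNorm_differentIdeal_mul_natAbs_discr_pow K (𝓞 K) L (𝓞 L)
  have hK : (1 : ℝ) ≤ |(discr K : ℝ)| := by
    have h1 : (1 : ℤ) ≤ |discr K| := Int.one_le_abs (discr_ne_zero K)
    exact_mod_cast h1
  have hD : differentIdeal (𝓞 K) (𝓞 L) ≠ 0 := differentIdeal_ne_bot
  have h1 : (Ideal.absNorm (differentIdeal (𝓞 K) (𝓞 L)) : ℝ) ≠ 0 := by
    exact_mod_cast fun h => hD (Ideal.absNorm_eq_zero_iff.1 h)
  have h3 : (((discr K).natAbs : ℕ) : ℝ) = |(discr K : ℝ)| := by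
    rw [Nat.cast_natAbs, Int.cast_abs]
  have h4 : (((discr L).natAbs : ℕ) : ℝ) = |(discr L : ℝ)| := by
    rw [Nat.cast_natAbs, Int.cast_abs]
  have h5 := congrArg (fun n : ℕ => Real.log (n : ℝ)) h
  simp only [Nat.cast_mul, Nat.cast_pow] at h5
  rw [h3, h4, Real.log_mul h1 (pow_ne_zero _ (by linarith)), Real.log_pow] at h5
  linarith

/-- the extension of an ideal -/
noncomputable def ext (v : Ideal (𝓞 K)) : Ideal (𝓞 L) := v.map (algebraMap (𝓞 K) (𝓞 L))

variable {K L}

omit [NumberField K] [NumberField L] in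
theorem ext_ne (v : Ideal (𝓞 K)) (hv : v ≠ ⊥) : ext K L v ≠ 0 := by
  intro h
  exact hv ((Ideal.map_eq_bot_iff_of_injective
    (FaithfulSMul.algebraMap_injective (𝓞 K) (𝓞 L))).1 h)

/-- the exponent of a prime in the extension of the prime below it -/
noncomputable def e (K : Type) {L : Type} [Field K] [NumberField K] [Field L] [NumberField L]
    [Algebra K L] (P : Ideal (𝓞 L)) : ℕ := by
  classical
  exact (normalizedFactors (ext K L (P.under (𝓞 K)))).count P

open Classical in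
/-- the primes above `v` -/
noncomputable def above (L : Type) {K : Type} [Field K] [NumberField K] [Field L] [NumberField L]
    [Algebra K L] (v : Ideal (𝓞 K)) : Finset (Ideal (𝓞 L)) :=
  (normalizedFactors (ext K L v)).toFinset

theorem mem_above {v : Ideal (𝓞 K)} (hv : v ≠ ⊥) {P : Ideal (𝓞 L)} (h : P ∈ above L v) :
    P.IsPrime ∧ P ≠ ⊥ ∧ ext K L v ≤ P := by
  classical
  rw [above, Multiset.mem_toFinset] at h
  have h1 := prime_of_normalized_factor P h
  exact ⟨Ideal.isPrime_of_prime h1, h1.ne_zero,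
    Ideal.le_of_dvd (dvd_of_mem_normalizedFactors h)⟩

theorem under_eq {v : Ideal (𝓞 K)} [hv : v.IsMaximal] (hv0 : v ≠ ⊥) {P : Ideal (𝓞 L)}
    (h : P ∈ above L v) : P.under (𝓞 K) = v := by
  obtain ⟨h1, h2, h3⟩ := mem_above hv0 h
  have h4 : v ≤ P.under (𝓞 K) := Ideal.map_le_iff_le_comap.1 h3
  have h5 : P.under (𝓞 K) ≠ ⊤ := Ideal.comap_ne_top _ h1.ne_top
  exact (hv.eq_of_le h5 h4).symm

theorem pow_dvd_ext {v : Ideal (𝓞 K)} [hv : v.IsMaximal] (hv0 : v ≠ ⊥) {P : Ideal (𝓞 L)}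
    (h : P ∈ above L v) : P ^ e K P ∣ ext K L v ∧ e K P ≠ 0 := by
  classical
  have h1 := under_eq hv0 h
  have h2 : (normalizedFactors (ext K L v)).prod = ext K L v :=
    Ideal.prod_normalizedFactors_eq_self (ext_ne v hv0)
  have h3 : e K P = (normalizedFactors (ext K L v)).count P := by
    unfold e
    rw [h1]
  have h4 : ∏ P ∈ above L v, P ^ (normalizedFactors (ext K L v)).count P = ext K L v :=
    (Finset.prod_multiset_count _).symm.trans h2
  rw [h3]
  refine ⟨?_, ?_⟩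
  · have h5 := Finset.dvd_prod_of_mem (fun P => P ^ (normalizedFactors (ext K L v)).count P) h
    rw [h4] at h5
    exact h5
  · rw [above, Multiset.mem_toFinset] at h
    exact (Multiset.count_pos.2 h).ne'

theorem sum_above {v : Ideal (𝓞 K)} [hv : v.IsMaximal] (hv0 : v ≠ ⊥) :
    ∑ P ∈ above L v, (e K P : ℝ) * Real.log (Ideal.absNorm P : ℝ) =
      Module.finrank K L * Real.log (Ideal.absNorm v : ℝ) := by
  classical
  have h2 : (normalizedFactors (ext K L v)).prod = ext K L v :=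
    Ideal.prod_normalizedFactors_eq_self (ext_ne v hv0)
  have h4 : Ideal.absNorm (ext K L v) = Ideal.absNorm v ^ Module.finrank K L := by
    have h := Ideal.absNorm_algebraMap (R := 𝓞 K) (𝓞 L) v
    rw [← IsFractionRing.finrank_eq (𝓞 K) K (𝓞 L) L] at h
    exact h
  have h3 : ∏ P ∈ above L v, P ^ (normalizedFactors (ext K L v)).count P = ext K L v :=
    (Finset.prod_multiset_count _).symm.trans h2
  have h5 : ∏ P ∈ above L v, (Ideal.absNorm P) ^ e K P = Ideal.absNorm v ^ Module.finrank K L := by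
    rw [← h4]
    conv_rhs => rw [← h3]
    rw [map_prod]
    refine Finset.prod_congr rfl fun P hP => ?_
    rw [map_pow]
    congr 1
    unfold e
    rw [under_eq hv0 hP]
  have h6 := congrArg (fun n : ℕ => Real.log (n : ℝ)) h5
  simp only [Nat.cast_prod, Nat.cast_pow] at h6
  rw [Real.log_pow, Real.log_prod] at h6
  · rw [← h6]
    refine Finset.sum_congr rfl fun P hP => ?_
    rw [Real.log_pow]
  · intro P hP
    have h7 := (mem_above hv0 hP).2.1
    refine pow_ne_zero _ ?_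
    exact_mod_cast fun h => h7 (Ideal.absNorm_eq_zero_iff.1 h)

/-- **the main inequality** -/
theorem cover (K : Type) [Field K] [NumberField K] (L : Type) [Field L] [NumberField L]
    [Algebra K L] (S : Finset (HeightOneSpectrum (𝓞 K))) :
    ∃ T : Finset (HeightOneSpectrum (𝓞 L)),
      (∀ w ∈ T, ∃ v ∈ S, ∀ x ∈ v.asIdeal, algebraMap (𝓞 K) (𝓞 L) x ∈ w.asIdeal) ∧
      (Module.finrank K L : ℝ) * ∑ v ∈ S, Real.log (Ideal.absNorm v.asIdeal : ℝ) ≤
        ∑ w ∈ T, Real.log (Ideal.absNorm w.asIdeal : ℝ) +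
          (Real.log |(discr L : ℝ)| - Module.finrank K L * Real.log |(discr K : ℝ)|) := by
  classical
  obtain ⟨T', hT'⟩ : ∃ T' : Finset (Ideal (𝓞 L)), T' = S.biUnion fun v => above L v.asIdeal :=
    ⟨_, rfl⟩
  have hmem : ∀ P ∈ T', ∃ v ∈ S, P ∈ above L v.asIdeal := by
    intro P hP
    rw [hT', Finset.mem_biUnion] at hP
    exact hP
  have hdisj : (S : Set (HeightOneSpectrum (𝓞 K))).PairwiseDisjoint fun v => above L v.asIdeal := by
    intro v hv w hw hvw
    rw [Function.onFun, Finset.disjoint_left]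
    intro P hP hP'
    apply hvw
    have : v.asIdeal.IsMaximal := v.isMaximal
    have : w.asIdeal.IsMaximal := w.isMaximal
    ext1
    rw [← under_eq v.ne_bot hP, ← under_eq w.ne_bot hP']
  have hsum : ∑ P ∈ T', (e K P : ℝ) * Real.log (Ideal.absNorm P : ℝ) =
      (Module.finrank K L : ℝ) * ∑ v ∈ S, Real.log (Ideal.absNorm v.asIdeal : ℝ) := by
    rw [hT', Finset.sum_biUnion hdisj, Finset.mul_sum]
    refine Finset.sum_congr rfl fun v _ => ?_
    have : v.asIdeal.IsMaximal := v.isMaximal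
    exact sum_above v.ne_bot
  have hD0 : differentIdeal (𝓞 K) (𝓞 L) ≠ 0 := differentIdeal_ne_bot
  have hdvd : ∏ P ∈ T', P ^ (e K P - 1) ∣ differentIdeal (𝓞 K) (𝓞 L) := by
    refine Finset.prod_dvd_of_isRelPrime ?_ ?_
    · intro P hP Q hQ hPQ
      obtain ⟨v, hv, hP'⟩ := hmem P hP
      obtain ⟨w, hw, hQ'⟩ := hmem Q hQ
      obtain ⟨p1, p2, -⟩ := mem_above v.ne_bot hP'
      obtain ⟨q1, q2, -⟩ := mem_above w.ne_bot hQ'
      have hPp : Prime P := Ideal.prime_of_isPrime p2 p1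
      have hQp : Prime Q := Ideal.prime_of_isPrime q2 q1
      refine IsRelPrime.pow ?_
      rw [hPp.irreducible.isRelPrime_iff_not_dvd]
      intro hd
      exact hPQ (associated_iff_eq.1 (hPp.associated_of_dvd hQp hd))
    · intro P hP
      obtain ⟨v, hv, hP'⟩ := hmem P hP
      have : v.asIdeal.IsMaximal := v.isMaximal
      obtain ⟨h1, h2⟩ := pow_dvd_ext v.ne_bot hP'
      exact pow_sub_one_dvd_differentIdeal_aux (𝓞 K) K L P h2 v.ne_bot h1
  have hT0 : ∀ P ∈ T', (1 : ℝ) ≤ (Ideal.absNorm P : ℝ) ∧ P.IsPrime ∧ P ≠ ⊥ ∧ 1 ≤ e K P := by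
    intro P hP
    obtain ⟨v, hv, hP'⟩ := hmem P hP
    have : v.asIdeal.IsMaximal := v.isMaximal
    obtain ⟨p1, p2, -⟩ := mem_above v.ne_bot hP'
    refine ⟨?_, p1, p2, Nat.one_le_iff_ne_zero.2 (pow_dvd_ext v.ne_bot hP').2⟩
    exact_mod_cast Nat.one_le_iff_ne_zero.2 fun h => p2 (Ideal.absNorm_eq_zero_iff.1 h)
  have hlog : ∑ P ∈ T', ((e K P : ℝ) - 1) * Real.log (Ideal.absNorm P : ℝ) ≤
      Real.log (Ideal.absNorm (differentIdeal (𝓞 K) (𝓞 L)) : ℝ) := by
    have h1 := map_dvd Ideal.absNorm hdvd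
    rw [map_prod] at h1
    have h2 : 0 < Ideal.absNorm (differentIdeal (𝓞 K) (𝓞 L)) :=
      Nat.pos_of_ne_zero fun h => hD0 (Ideal.absNorm_eq_zero_iff.1 h)
    have h3 := Nat.le_of_dvd h2 h1
    have h4 : (0 : ℝ) < ((∏ P ∈ T', Ideal.absNorm (P ^ (e K P - 1)) : ℕ) : ℝ) := by
      exact_mod_cast Nat.pos_of_dvd_of_pos h1 h2
    have h5 := Real.log_le_log h4 (show ((∏ P ∈ T', Ideal.absNorm (P ^ (e K P - 1)) : ℕ) : ℝ) ≤
      (Ideal.absNorm (differentIdeal (𝓞 K) (𝓞 L)) : ℝ) by exact_mod_cast h3)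
    refine le_trans (le_of_eq ?_) h5
    rw [Nat.cast_prod, Real.log_prod]
    · refine Finset.sum_congr rfl fun P hP => ?_
      rw [map_pow, Nat.cast_pow, Real.log_pow, Nat.cast_sub (hT0 P hP).2.2.2, Nat.cast_one]
    · intro P hP
      rw [map_pow, Nat.cast_pow]
      have := (hT0 P hP).1
      positivity
  refine ⟨T'.attach.image fun P => ⟨P.1, (hT0 P.1 P.2).2.1, (hT0 P.1 P.2).2.2.1⟩, ?_, ?_⟩
  · intro w hw
    rw [Finset.mem_image] at hw
    obtain ⟨P, -, rfl⟩ := hw
    obtain ⟨v, hv, hP'⟩ := hmem P.1 P.2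
    refine ⟨v, hv, fun x hx => ?_⟩
    exact (mem_above v.ne_bot hP').2.2 (Ideal.mem_map_of_mem _ hx)
  · rw [← log_diff, Finset.sum_image, Finset.sum_attach T' fun P => Real.log (Ideal.absNorm P : ℝ),
      ← hsum]
    · have h6 : ∑ P ∈ T', (e K P : ℝ) * Real.log (Ideal.absNorm P : ℝ) =
          ∑ P ∈ T', Real.log (Ideal.absNorm P : ℝ) +
            ∑ P ∈ T', ((e K P : ℝ) - 1) * Real.log (Ideal.absNorm P : ℝ) := by
        rw [← Finset.sum_add_distrib]
        refine Finset.sum_congr rfl fun P _ => ?_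
        ring
      rw [h6]
      linarith
    · intro P _ Q _ h
      have h1 := congrArg HeightOneSpectrum.asIdeal h
      exact Subtype.ext h1

end

end Pool.Agent.N365.FH
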