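import Pool.Agent.N365.FH.A
import Pool.Agent.Y733.FF.Main

/-!
# The conductor of the Weil restriction of an elliptic curve whose invariant has many poles

The lemmas `exists_above`, `not_mem_of`, `val_int`, `val_lt`, `le_norm`, `bad_at`, `fin_nat_le`,
`ht_int`, `ht_le` are taken from `Pool/Agent/N141/TS/Frey.lean` (helper141).
-/

set_option autoImplicit false
set_option linter.unusedSectionVars false

namespace Pool.Agent.N365.FH

open NumberField IsDedekindDomain Height Pool.Agent.H691R3 Pool.Agent.W223.AK Pool.Agent.Y733.LS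
open Pool.Agent.TH876.FH (GoodAt IsPeriod arch Hj_height)
open Pool.Agent.Y733.FF

section
variable (K : Type) [Field K] [NumberField K]

/-- a place above `p` -/
theorem exists_above {p : ℕ} (hp : p.Prime) : ∃ v : HeightOneSpectrum (𝓞 K),
    (p : 𝓞 K) ∈ v.asIdeal := by
  have hne : Ideal.span {(p : 𝓞 K)} ≠ ⊤ := by
    intro h
    rw [Ideal.span_singleton_eq_top] at h
    have h1 := (NumberField.isUnit_iff_norm (K := K)).1 h
    have h2 : |(RingOfIntegers.norm ℚ (p : 𝓞 K) : ℚ)| = (p : ℚ) ^ Module.finrank ℚ K := by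
      rw [RingOfIntegers.coe_norm]
      have h3 : (((p : 𝓞 K)) : K) = algebraMap ℚ K p := by simp
      rw [h3, Algebra.norm_algebraMap, abs_of_nonneg (by positivity)]
    rw [h2] at h1
    have h3 : (1 : ℚ) < (p : ℚ) ^ Module.finrank ℚ K :=
      one_lt_pow₀ (by exact_mod_cast hp.one_lt) Module.finrank_pos.ne'
    linarith
  obtain ⟨M, hM, hle⟩ := Ideal.exists_le_maximal _ hne
  have hmem : (p : 𝓞 K) ∈ M := hle (Ideal.mem_span_singleton_self _)
  refine ⟨⟨M, hM.isPrime, ?_⟩, hmem⟩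
  rintro rfl
  rw [Ideal.mem_bot] at hmem
  exact hp.ne_zero (by exact_mod_cast hmem)

variable {K}

theorem not_mem_of {p : ℕ} (hp : p.Prime) {v : HeightOneSpectrum (𝓞 K)}
    (hv : (p : 𝓞 K) ∈ v.asIdeal) {x : ℤ} (hx : ¬ (p : ℤ) ∣ x) : (x : 𝓞 K) ∉ v.asIdeal := by
  intro hmem
  have hcop : IsCoprime (p : ℤ) x := (Nat.prime_iff_prime_int.1 hp).coprime_iff_not_dvd.2 hx
  obtain ⟨a, b, hab⟩ := hcop
  have h1 : (1 : 𝓞 K) ∈ v.asIdeal := by
    have e : (1 : 𝓞 K) = (a : 𝓞 K) * (p : 𝓞 K) + (b : 𝓞 K) * (x : 𝓞 K) := by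
      have := congrArg (fun z : ℤ => (z : 𝓞 K)) hab
      push_cast at this
      exact this.symm
    rw [e]
    exact v.asIdeal.add_mem (v.asIdeal.mul_mem_left _ hv) (v.asIdeal.mul_mem_left _ hmem)
  exact v.isPrime.ne_top ((Ideal.eq_top_iff_one _).2 h1)

theorem val_int {p : ℕ} (hp : p.Prime) {v : HeightOneSpectrum (𝓞 K)}
    (hv : (p : 𝓞 K) ∈ v.asIdeal) {x : ℤ} (hx : ¬ (p : ℤ) ∣ x) : v.valuation K (x : K) = 1 := by
  have h1 : v.valuation K (algebraMap (𝓞 K) K (x : 𝓞 K)) ≤ 1 := v.valuation_le_one _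
  have h2 : ¬ v.valuation K (algebraMap (𝓞 K) K (x : 𝓞 K)) < 1 := by
    rw [v.valuation_lt_one_iff_mem]
    exact not_mem_of hp hv hx
  have h3 : (algebraMap (𝓞 K) K (x : 𝓞 K)) = (x : K) := by simp
  rw [h3] at h1 h2
  exact le_antisymm h1 (not_lt.1 h2)

theorem val_lt {p : ℕ} {v : HeightOneSpectrum (𝓞 K)}
    (hv : (p : 𝓞 K) ∈ v.asIdeal) {y : ℤ} (hy : (p : ℤ) ∣ y) : v.valuation K (y : K) < 1 := by
  have h3 : (algebraMap (𝓞 K) K (y : 𝓞 K)) = (y : K) := by simp
  rw [← h3, v.valuation_lt_one_iff_mem]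
  obtain ⟨k, rfl⟩ := hy
  push_cast
  exact v.asIdeal.mul_mem_right _ hv

theorem le_norm {p : ℕ} (hp : p.Prime) {v : HeightOneSpectrum (𝓞 K)}
    (hv : (p : 𝓞 K) ∈ v.asIdeal) : (p : ℝ) ≤ Nv v := by
  have h1 : p ∣ Ideal.absNorm v.asIdeal := by
    by_contra hcon
    have h2 : ¬ (p : ℤ) ∣ ((Ideal.absNorm v.asIdeal : ℕ) : ℤ) := by exact_mod_cast hcon
    apply not_mem_of hp hv h2
    have := Ideal.absNorm_mem v.asIdeal
    exact_mod_cast this
  have h2 : 0 < Ideal.absNorm v.asIdeal := by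
    have := NumberField.HeightOneSpectrum.one_lt_absNorm v
    omega
  have h3 := Nat.le_of_dvd h2 h1
  unfold Nv
  exact_mod_cast h3

/-- bad reduction at a pole, with its weight -/
theorem bad_at (E : WeierstrassCurve K) (hE0 : E.Δ ≠ 0) {x y : ℤ} (hy0 : y ≠ 0)
    (hj : E.c₄ ^ 3 / E.Δ = (x : K) / y) {p : ℕ} (hp : p.Prime) (h5 : 5 ≤ p) (hy : (p : ℤ) ∣ y)
    (hx : ¬ (p : ℤ) ∣ x) {v : HeightOneSpectrum (𝓞 K)} (hv : (p : 𝓞 K) ∈ v.asIdeal) :
    Real.log (Nv v) = mw v E + aw v E := by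
  have hbad : ¬ GoodAt v E := by
    intro hg
    have h1 := good_int v E hE0 hg
    rw [hj, fv_le_one_iff, map_div₀, val_int hp hv hx] at h1
    have h2 := val_lt hv hy
    have h3 : v.valuation K (y : K) ≠ 0 := (v.valuation K).ne_zero_iff.2 (by exact_mod_cast hy0)
    have h4 : (1 : WithZero (Multiplicative ℤ)) ≤ v.valuation K (y : K) := by
      rw [div_le_iff₀ (zero_lt_iff.2 h3), one_mul] at h1
      exact h1
    exact absurd h2 (not_lt.2 h4)
  have h6 : v.valuation K 6 = 1 := by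
    have hnd : ¬ (p : ℤ) ∣ (6 : ℤ) := by
      intro hd
      have h7 : p ∣ 6 := by exact_mod_cast hd
      have h8 : p ∣ 2 * 3 := h7
      rcases (Nat.Prime.dvd_mul hp).1 h8 with h9 | h9
      · have := Nat.le_of_dvd (by norm_num) h9
        omega
      · have := Nat.le_of_dvd (by norm_num) h9
        omega
    have := val_int hp hv hnd
    exact_mod_cast this
  by_cases hs : SemiAt v E
  · have h7 : mw v E = Real.log (Nv v) := by
      unfold mw
      exact if_pos ⟨hbad, hs, h6⟩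
    have h8 : aw v E = 0 := by
      unfold aw
      exact if_neg fun h => h.1 hs
    rw [h7, h8, add_zero]
  · have h7 : aw v E = Real.log (Nv v) := by
      unfold aw
      exact if_pos ⟨hs, h6⟩
    have h8 : mw v E = 0 := by
      unfold mw
      exact if_neg fun h => hs h.2.1
    rw [h7, h8, zero_add]

theorem sum_le_fs {ι : Type*} (f : ι → ℝ) (h0 : ∀ i, 0 ≤ f i) (hs : (Function.support f).Finite)
    (T : Finset ι) : ∑ i ∈ T, f i ≤ ∑ᶠ i, f i := by
  classical
  have e : ∑ᶠ i, f i = ∑ i ∈ hs.toFinset ∪ T, f i := by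
    refine finsum_eq_sum_of_support_subset _ fun i hi => ?_
    rw [Finset.coe_union, Set.Finite.coe_toFinset]
    exact Or.inl hi
  rw [e]
  exact Finset.sum_le_sum_of_subset_of_nonneg Finset.subset_union_right fun i _ _ => h0 i

end

/-- **the conductor is large** -/
theorem cond_ge (K : Type) [Field K] [NumberField K] {L : Type} [Field L] [NumberField L]
    [Algebra K L] (E : WeierstrassCurve L) (hE : E.Δ ≠ 0) {x y : ℤ} (hy0 : y ≠ 0)
    (hj : E.c₄ ^ 3 / E.Δ = (x : L) / y) (F : Finset ℕ)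
    (hF : ∀ l ∈ F, l.Prime ∧ (l : ℤ) ∣ y ∧ ¬ (l : ℤ) ∣ x ∧ 5 ≤ l) :
    (Module.finrank K L : ℝ) * Real.log ((∏ l ∈ F, l : ℕ) : ℝ) ≤
      Real.log (multN E) + Real.log (addN E) +
        (Real.log |(discr L : ℝ)| - Module.finrank K L * Real.log |(discr K : ℝ)|) := by
  classical
  obtain ⟨v0, -⟩ := exists_above K Nat.prime_two
  obtain ⟨pl, hpl⟩ : ∃ pl : ℕ → HeightOneSpectrum (𝓞 K), ∀ p : ℕ, p.Prime →
      ((p : ℕ) : 𝓞 K) ∈ (pl p).asIdeal := by
    refine ⟨fun p => if h : p.Prime then (exists_above K h).choose else v0, fun p hp => ?_⟩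
    simp only [dif_pos hp]
    exact (exists_above K hp).choose_spec
  have hinj : Set.InjOn pl (F : Set ℕ) := by
    intro p hp q hq h
    by_contra hne
    have hpp := (hF p hp).1
    have hqp := (hF q hq).1
    have h1 : ¬ (p : ℤ) ∣ (q : ℤ) := by
      intro hd
      exact hne ((Nat.prime_dvd_prime_iff_eq hpp hqp).mp (by exact_mod_cast hd))
    apply not_mem_of hpp (hpl p hpp) h1
    rw [h]
    exact_mod_cast hpl q hqp
  obtain ⟨T, hT, hle⟩ := cover K L (F.image pl)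
  have h1 : Real.log ((∏ l ∈ F, l : ℕ) : ℝ) ≤
      ∑ v ∈ F.image pl, Real.log (Ideal.absNorm v.asIdeal : ℝ) := by
    rw [Finset.sum_image hinj, Nat.cast_prod, Real.log_prod (s := F)
      (f := fun p => ((p : ℕ) : ℝ)) (fun p hp => by
        have := (hF p hp).1.pos
        positivity)]
    refine Finset.sum_le_sum fun p hp => ?_
    have := (hF p hp).1.pos
    exact Real.log_le_log (by exact_mod_cast this) (le_norm (hF p hp).1 (hpl p (hF p hp).1))
  have h2 : ∑ w ∈ T, Real.log (Ideal.absNorm w.asIdeal : ℝ) ≤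
      Real.log (multN E) + Real.log (addN E) := by
    have h3 : ∑ w ∈ T, Real.log (Ideal.absNorm w.asIdeal : ℝ) =
        ∑ w ∈ T, mw w E + ∑ w ∈ T, aw w E := by
      rw [← Finset.sum_add_distrib]
      refine Finset.sum_congr rfl fun w hw => ?_
      obtain ⟨v, hv, hvw⟩ := hT w hw
      obtain ⟨l, hl, rfl⟩ := Finset.mem_image.1 hv
      obtain ⟨g1, g2, g3, g4⟩ := hF l hl
      have hw' := hvw _ (hpl l g1)
      rw [map_natCast] at hw'
      exact bad_at E hE hy0 hj g1 g4 g2 g3 hw'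
    have h4 := sum_le_fs (fun w => mw w E) (fun w => mw_nonneg w E) (supp_mw E hE) T
    have h5 := sum_le_fs (fun w => aw w E) (fun w => aw_nonneg w E) (supp_aw E hE) T
    have h6 : 0 ≤ ∑ᶠ w : HeightOneSpectrum (𝓞 L), aw w E := finsum_nonneg fun w => aw_nonneg w E
    rw [h3, log_multN E hE, log_addN E hE]
    linarith
  have h7 : (0 : ℝ) ≤ Module.finrank K L := Nat.cast_nonneg _
  have h8 := mul_le_mul_of_nonneg_left h1 h7
  linarith

section
variable {K : Type} [Field K] [NumberField K]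

theorem fin_nat_le (v : FinitePlace K) (n : ℕ) : v (n : K) ≤ 1 := by
  have h := (fv_Na (K := K) v.maximalIdeal).nat n
  have e : FinitePlace.mk v.maximalIdeal = v := FinitePlace.mk_maximalIdeal v
  unfold fv at h
  rw [e] at h
  exact h

variable (K)

/-- the height of an integer -/
theorem ht_int {x : ℤ} (hx : x ≠ 0) :
    logHeight₁ (x : K) = Module.finrank ℚ K * Real.log |(x : ℝ)| := by
  obtain ⟨n, hn, hxn⟩ : ∃ n : ℕ, 1 ≤ n ∧ (x = n ∨ x = -n) := by
    refine ⟨x.natAbs, by have := Int.natAbs_pos.mpr hx; omega, Int.natAbs_eq x⟩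
  have key : logHeight₁ ((n : ℕ) : K) = Module.finrank ℚ K * Real.log n := by
    rw [NumberField.logHeight₁_eq]
    have h1 : ∑ v : InfinitePlace K, (v.mult : ℝ) * Real.posLog (v (n : K)) =
        Module.finrank ℚ K * Real.log n := by
      have h2 : ∀ v : InfinitePlace K, (v.mult : ℝ) * Real.posLog (v (n : K)) =
          v.mult * Real.log n := by
        intro v
        rw [InfinitePlace.map_natCast, Real.posLog_eq_log]
        rw [abs_of_nonneg (Nat.cast_nonneg n)]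
        exact_mod_cast hn
      rw [Finset.sum_congr rfl fun v _ => h2 v, ← Finset.sum_mul]
      congr 1
      exact_mod_cast InfinitePlace.sum_mult_eq (K := K)
    have h2 : ∑ᶠ v : FinitePlace K, Real.posLog (v (n : K)) = 0 := by
      have : ∀ v : FinitePlace K, Real.posLog (v (n : K)) = 0 := fun v => by
        rw [Real.posLog_eq_zero_iff, abs_of_nonneg (apply_nonneg _ _)]
        exact fin_nat_le v n
      simp [this]
    rw [h1, h2, add_zero]
  rcases hxn with rfl | rfl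
  · rw [Int.cast_natCast, key, Int.cast_natCast, abs_of_nonneg (Nat.cast_nonneg n)]
  · rw [Int.cast_neg, Int.cast_natCast, logHeight₁_neg, key, Int.cast_neg, Int.cast_natCast, abs_neg,
      abs_of_nonneg (Nat.cast_nonneg n)]

/-- the height of a quotient -/
theorem ht_le {x y : ℤ} (hx : x ≠ 0) (hy : y ≠ 0) {H : ℝ}
    (h1 : |(x : ℝ)| ≤ H) (h2 : |(y : ℝ)| ≤ H) :
    logHeight₁ ((x : K) / y) ≤ Module.finrank ℚ K * (2 * Real.log H) := by
  rw [div_eq_mul_inv]
  refine (logHeight₁_mul_le _ _).trans ?_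
  rw [logHeight₁_inv, ht_int K hx, ht_int K hy, ← mul_add]
  refine mul_le_mul_of_nonneg_left ?_ (Nat.cast_nonneg _)
  have hx0 : 0 < |(x : ℝ)| := abs_pos.mpr (by exact_mod_cast hx)
  have hy0 : 0 < |(y : ℝ)| := abs_pos.mpr (by exact_mod_cast hy)
  have h3 := Real.log_le_log hx0 h1
  have h4 := Real.log_le_log hy0 h2
  linarith

end

/-- the discriminant and the archimedean terms are bounded by the height of the invariant -/
theorem disc_arch_le : ∃ C : ℝ, 0 < C ∧ ∀ (K : Type) [Field K] [NumberField K]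
    (E : WeierstrassCurve K) (τ : InfinitePlace K → UpperHalfPlane), E.Δ ≠ 0 →
    IsPeriod (E.c₄ ^ 3 / E.Δ) τ →
    discSum E + ∑ w : InfinitePlace K, (w.mult : ℝ) * arch (τ w) ≤
      logHeight₁ (E.c₄ ^ 3 / E.Δ) + (Real.log (multN E) + 5 * Real.log (addN E)) +
        C * Module.finrank ℚ K := by
  obtain ⟨c, hc0, hc⟩ := arch_le
  have l6 : 0 < Real.log 6 := Real.log_pos (by norm_num)
  refine ⟨c + 22 * Real.log 6, by positivity, ?_⟩
  intro K _ _ E τ hE hτ
  have h1 := disc_sum_le E hE (δ := 0) le_rfl (by norm_num)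
  have h2 := hc K _ τ hτ
  have h4 : ht (E.c₄ ^ 3 / E.Δ) =
      ∑ w : InfinitePlace K, (w.mult : ℝ) * Real.log (max (w (E.c₄ ^ 3 / E.Δ)) 1) +
      ∑ᶠ v : HeightOneSpectrum (𝓞 K), Real.log (max (FinitePlace.mk v (E.c₄ ^ 3 / E.Δ)) 1) := by
    rw [← Hj_height, logHeight_eq, ht_eq_Sa]
  have h5' : ∑ᶠ v : Pr K, Real.log (max (fv v (E.c₄ ^ 3 / E.Δ)) 1) =
    ∑ᶠ v : HeightOneSpectrum (𝓞 K), Real.log (max (FinitePlace.mk v (E.c₄ ^ 3 / E.Δ)) 1) := rfl
  rw [h5'] at h1
  have h7 : logHeight₁ (E.c₄ ^ 3 / E.Δ) = ht (E.c₄ ^ 3 / E.Δ) := by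
    rw [logHeight_eq, ht_eq_Sa]
  have h11 : 0 ≤ (1 + (0 : ℝ)) * sp (E.c₄ ^ 3 / E.Δ) := by
    have : 0 ≤ sp (E.c₄ ^ 3 / E.Δ) := by
      unfold sp
      refine finsum_nonneg fun v => ?_
      split_ifs
      · exact (log_Nv_pos v).le
      · exact le_rfl
    linarith
  rw [h7, h4]
  linarith

end Pool.Agent.N365.FH
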