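import Pool.Agent.N365.HY.I

/-!
# All but few members of a family: general form
-/

set_option autoImplicit false

namespace Pool.Agent.N365.FH

open Polynomial NumberField IsDedekindDomain
open Pool.Agent.N365.HY (Many many_rat many_int)
open Pool.Agent.N365.SZ (Box mem_Box card_Box)
open Pool.Agent.Y670.RD (fv fv_le fv_eq toQ)
open Pool.Agent.N365.LS (Rat poleCount fv_bound2)

/-- the value at a rational number -/
noncomputable def ev (f : ℤ[X]) (t : ℚ) : ℚ := f.eval₂ (Int.castRingHom ℚ) t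

theorem ev_int (f : ℤ[X]) (t : ℤ) : ev f t = ((f.eval t : ℤ) : ℚ) := by
  simp [ev]

theorem quot_eq {N : ℕ} {A D : ℤ[X]} (hA : A.natDegree ≤ N) (hD : D.natDegree ≤ N) {s u : ℤ}
    (hu : u ≠ 0) : ((fv N A s u : ℤ) : ℚ) / ((fv N D s u : ℤ) : ℚ) =
      ev A ((s : ℚ) / u) / ev D ((s : ℚ) / u) ∧
    (((fv N D s u : ℤ) : ℚ) ≠ 0 → ev D ((s : ℚ) / u) ≠ 0) := by
  have h1 := fv_eq (K := ℚ) hA (s := s) (t := u) (by exact_mod_cast hu)
  have h2 := fv_eq (K := ℚ) hD (s := s) (t := u) (by exact_mod_cast hu)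
  have hu' : ((u : ℚ)) ^ N ≠ 0 := pow_ne_zero _ (by exact_mod_cast hu)
  have e1 : ((fv N A s u : ℤ) : ℚ) = (u : ℚ) ^ N * ev A ((s : ℚ) / u) := h1
  have e2 : ((fv N D s u : ℤ) : ℚ) = (u : ℚ) ^ N * ev D ((s : ℚ) / u) := h2
  rw [e1, e2]
  refine ⟨mul_div_mul_left _ _ hu', fun h => right_ne_zero_of_mul h⟩

/-- a property of the invariant that follows from many poles -/
def Follows (η : ℝ) (M : ℕ) (Prt : ℕ → ℚ → Prop) : Prop :=
  ∃ B₀ : ℕ, ∀ B : ℕ, B₀ ≤ B → 1 ≤ B → ∀ x y : ℤ, Many η B x y → |(x : ℝ)| ≤ (B : ℝ) ^ M →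
    |(y : ℝ)| ≤ (B : ℝ) ^ M → Prt B ((x : ℚ) / y)

theorem pow_le_of {C0 : ℝ} {B N : ℕ} (hC : C0 ≤ B) {z : ℝ} (h : z ≤ C0 * (B : ℝ) ^ N) :
    z ≤ (B : ℝ) ^ (N + 1) := by
  refine h.trans ?_
  rw [pow_succ, mul_comm]
  exact mul_le_mul_of_nonneg_left hC (by positivity)

/-- all but few rational members -/
theorem few_rat {N : ℕ} {A D : ℤ[X]} (hR : Rat N A D) {ε : ℝ} (hε : 0 < ε) {Prt : ℕ → ℚ → Prop}
    (hP : Follows (ε / 8) (N + 1) Prt) :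
    ∃ C : ℝ, ∀ B : ℕ, 1 ≤ B → ({t : ℚ | |t.num| ≤ B ∧ t.den ≤ B ∧
      ¬ (ev D t ≠ 0 ∧ Prt B (ev A t / ev D t))}.ncard : ℝ) ≤
        C * (B : ℝ) ^ (if 2 ≤ poleCount N D then ε else 1 + ε) := by
  classical
  obtain ⟨C, hC0, hc⟩ := many_rat hR ε hε
  obtain ⟨C0, -, hbd⟩ := fv_bound2 N A D
  obtain ⟨b1, hb1⟩ := hP
  obtain ⟨b2, hb2⟩ := exists_nat_ge C0
  obtain ⟨B₀, hB₀⟩ : ∃ B₀ : ℕ, B₀ = max b1 b2 := ⟨_, rfl⟩
  obtain ⟨ex, hex⟩ : ∃ ex : ℝ, ex = if 2 ≤ poleCount N D then ε else 1 + ε := ⟨_, rfl⟩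
  have hex0 : 0 ≤ ex := by rw [hex]; split_ifs <;> linarith
  rw [← hex] at hc ⊢
  refine ⟨C + (2 * B₀ + 1) ^ 2, fun B hB => ?_⟩
  have hB1 : (1 : ℝ) ≤ B := by exact_mod_cast hB
  have hpw : 1 ≤ (B : ℝ) ^ ex := Real.one_le_rpow hB1 hex0
  have hinj : Function.Injective (fun t : ℚ => ((t.num, (t.den : ℤ)) : ℤ × ℤ)) := by
    intro a b hab
    rw [Prod.mk.injEq] at hab
    exact Rat.ext hab.1 (by exact_mod_cast hab.2)
  have hbox : ∀ (b : ℕ) (t : ℚ), |t.num| ≤ b → t.den ≤ b →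
      ((t.num, (t.den : ℤ)) : ℤ × ℤ) ∈ Box b := by
    intro b t h1 h2
    rw [mem_Box]
    refine ⟨⟨h1, ?_⟩, ?_⟩
    · show |(t.den : ℤ)| ≤ (b : ℤ)
      rw [abs_of_nonneg (by positivity)]
      exact_mod_cast h2
    · exact Rat.isCoprime_num_den t
  rcases lt_or_ge B B₀ with hBB | hBB
  · have h1 : ({t : ℚ | |t.num| ≤ B ∧ t.den ≤ B ∧
        ¬ (ev D t ≠ 0 ∧ Prt B (ev A t / ev D t))}.ncard : ℝ) ≤ ((Box B).card : ℝ) := by
      rw [← Set.ncard_coe_finset (Box B)]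
      refine Nat.cast_le.mpr (Set.ncard_le_ncard_of_injOn _ (fun t ht => ?_) (hinj.injOn)
        (Finset.finite_toSet _))
      exact hbox B t ht.1 ht.2.1
    have h2 := card_Box B
    have h3 : (2 * (B : ℝ) + 1) ^ 2 ≤ (2 * B₀ + 1) ^ 2 := by
      have : (B : ℝ) ≤ B₀ := by exact_mod_cast hBB.le
      exact pow_le_pow_left₀ (by positivity) (by linarith) 2
    calc _ ≤ ((Box B).card : ℝ) := h1
      _ ≤ (2 * (B₀ : ℝ) + 1) ^ 2 := h2.trans h3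
      _ ≤ (C + (2 * B₀ + 1) ^ 2) * 1 := by linarith
      _ ≤ _ := mul_le_mul_of_nonneg_left hpw (by positivity)
  · obtain ⟨E, hEc, hEg⟩ := hc B hB
    have hbB1 : b1 ≤ B := (le_max_left b1 b2).trans (by rw [← hB₀]; exact hBB)
    have hbB2 : C0 ≤ B := hb2.trans (by
      exact_mod_cast (le_max_right b1 b2).trans (by rw [← hB₀]; exact hBB))
    have hsub : {t : ℚ | |t.num| ≤ B ∧ t.den ≤ B ∧
        ¬ (ev D t ≠ 0 ∧ Prt B (ev A t / ev D t))} ⊆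
        (fun t : ℚ => ((t.num, (t.den : ℤ)) : ℤ × ℤ)) ⁻¹' (E : Set (ℤ × ℤ)) := by
      rintro t ⟨h1, h2, h3⟩
      by_contra hcon
      rw [Set.mem_preimage, Finset.mem_coe] at hcon
      have hden : (t.den : ℤ) ≠ 0 := by exact_mod_cast t.den_ne_zero
      have ht : t = ((t.num : ℤ) : ℚ) / ((t.den : ℤ) : ℚ) := by
        have := Rat.num_div_den t
        push_cast
        exact this.symm
      have hmany := hEg _ (hbox B t h1 h2) hcon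
      obtain ⟨c1, c2⟩ := hbd B _ (hbox B t h1 h2)
      have h4 := hb1 B hbB1 hB _ _ hmany (pow_le_of hbB2 c1) (pow_le_of hbB2 c2)
      obtain ⟨q1, q2⟩ := quot_eq hR.degA hR.degD (s := t.num) hden
      rw [← ht] at q1 q2
      refine h3 ⟨q2 (by exact_mod_cast hmany.1), ?_⟩
      rw [← q1]
      exact h4
    refine le_trans ?_ (hEc.trans ?_)
    · rw [← Set.ncard_coe_finset E]
      refine Nat.cast_le.mpr (Set.ncard_le_ncard_of_injOn _ (fun t ht => hsub ht) hinj.injOn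
        (Finset.finite_toSet E))
    · have h4 : 0 ≤ (2 * (B₀ : ℝ) + 1) ^ 2 * (B : ℝ) ^ ex := by positivity
      have e : (C + (2 * B₀ + 1) ^ 2) * (B : ℝ) ^ ex =
        C * (B : ℝ) ^ ex + (2 * B₀ + 1) ^ 2 * (B : ℝ) ^ ex := by ring
      rw [e]
      linarith

/-- all but few integral members, if the function has a finite pole -/
theorem few_int {N : ℕ} {A D : ℤ[X]} (hR : Rat N A D) (hD1 : 1 ≤ D.natDegree) {ε : ℝ}
    (hε : 0 < ε) {Prt : ℕ → ℚ → Prop} (hP : Follows (ε / 8) (N + 1) Prt) :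
    ∃ C : ℝ, ∀ B : ℕ, 1 ≤ B → ({t : ℤ | |t| ≤ B ∧
      ¬ (ev D t ≠ 0 ∧ Prt B (ev A t / ev D t))}.ncard : ℝ) ≤ C * (B : ℝ) ^ ε := by
  classical
  obtain ⟨C, hC0, hc⟩ := many_int hR hD1 ε hε
  obtain ⟨C0, -, hbd⟩ := fv_bound2 N A D
  obtain ⟨b1, hb1⟩ := hP
  obtain ⟨b2, hb2⟩ := exists_nat_ge C0
  obtain ⟨B₀, hB₀⟩ : ∃ B₀ : ℕ, B₀ = max b1 b2 := ⟨_, rfl⟩
  refine ⟨C + (2 * B₀ + 1), fun B hB => ?_⟩
  have hB1 : (1 : ℝ) ≤ B := by exact_mod_cast hB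
  have hpw : 1 ≤ (B : ℝ) ^ ε := Real.one_le_rpow hB1 hε.le
  have hIcc : ∀ b : ℕ, ((Finset.Icc (-(b : ℤ)) b).card : ℝ) = 2 * b + 1 := by
    intro b
    rw [Int.card_Icc]
    have e : ((b : ℤ) + 1 - -(b : ℤ)).toNat = 2 * b + 1 := by omega
    rw [e]
    push_cast
    ring
  rcases lt_or_ge B B₀ with hBB | hBB
  · have h1 : ({t : ℤ | |t| ≤ B ∧
        ¬ (ev D t ≠ 0 ∧ Prt B (ev A t / ev D t))}.ncard : ℝ) ≤
          ((Finset.Icc (-(B : ℤ)) B).card : ℝ) := by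
      rw [← Set.ncard_coe_finset (Finset.Icc (-(B : ℤ)) B)]
      refine Nat.cast_le.mpr (Set.ncard_le_ncard (fun t ht => ?_) (Finset.finite_toSet _))
      rw [Finset.mem_coe, Finset.mem_Icc]
      exact abs_le.mp ht.1
    rw [hIcc] at h1
    have h3 : (B : ℝ) ≤ B₀ := by exact_mod_cast hBB.le
    calc _ ≤ 2 * (B : ℝ) + 1 := h1
      _ ≤ (C + (2 * B₀ + 1)) * 1 := by linarith
      _ ≤ _ := mul_le_mul_of_nonneg_left hpw (by positivity)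
  · obtain ⟨E, hEc, hEg⟩ := hc B hB
    have hbB1 : b1 ≤ B := (le_max_left b1 b2).trans (by rw [← hB₀]; exact hBB)
    have hbB2 : C0 ≤ B := hb2.trans (by
      exact_mod_cast (le_max_right b1 b2).trans (by rw [← hB₀]; exact hBB))
    have hsub : {t : ℤ | |t| ≤ B ∧
        ¬ (ev D t ≠ 0 ∧ Prt B (ev A t / ev D t))} ⊆ (E : Set ℤ) := by
      rintro t ⟨h1, h3⟩
      by_contra hcon
      rw [Finset.mem_coe] at hcon
      have hmany := hEg t h1 hcon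
      have hP : ((t, 1) : ℤ × ℤ) ∈ Box B := mem_Box.mpr ⟨⟨h1, by
        show |(1 : ℤ)| ≤ B
        rw [abs_one]; exact_mod_cast hB⟩, isCoprime_one_right⟩
      obtain ⟨c1, c2⟩ := hbd B _ hP
      simp only [Pool.Agent.N365.LS.fv_int N hR.degD] at c2
      simp only [Pool.Agent.N365.LS.fv_int N hR.degA] at c1
      have h4 := hb1 B hbB1 hB _ _ hmany (pow_le_of hbB2 c1) (pow_le_of hbB2 c2)
      refine h3 ⟨?_, ?_⟩
      · rw [ev_int]
        exact_mod_cast hmany.1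
      · rw [ev_int, ev_int]
        exact h4
    refine le_trans ?_ (hEc.trans ?_)
    · rw [← Set.ncard_coe_finset E]
      exact Nat.cast_le.mpr (Set.ncard_le_ncard hsub (Finset.finite_toSet E))
    · have h4 : 0 ≤ (2 * (B₀ : ℝ) + 1) * (B : ℝ) ^ ε := by positivity
      have e : (C + (2 * B₀ + 1)) * (B : ℝ) ^ ε =
        C * (B : ℝ) ^ ε + (2 * B₀ + 1) * (B : ℝ) ^ ε := by ring
      rw [e]
      linarith

end Pool.Agent.N365.FH
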