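import Pool.Agent.N365.FH.B
import Pool.Agent.N365.FH.C

/-!
# Frey's inequality from many poles
-/

set_option autoImplicit false
set_option linter.unusedSectionVars false

namespace Pool.Agent.N365.FH

open NumberField IsDedekindDomain Height Pool.Agent.H691R3 Pool.Agent.W223.AK Pool.Agent.Y733.LS
open Pool.Agent.TH876.FH (GoodAt IsPeriod arch Hj_height)
open Pool.Agent.Y733.FF
open Pool.Agent.N365.HY (Many)

/-- without the primes two and three -/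
theorem many_five {η : ℝ} {B : ℕ} {x y : ℤ} (h : Many η B x y) (hB1 : 1 ≤ B)
    (h6 : (6 : ℝ) ≤ (B : ℝ) ^ (η / 2)) :
    ∃ F : Finset ℕ, (∀ l ∈ F, l.Prime ∧ (l : ℤ) ∣ y ∧ ¬ (l : ℤ) ∣ x ∧ 5 ≤ l) ∧
      (B : ℝ) ^ (η / 2) ≤ ((∏ l ∈ F, l : ℕ) : ℝ) := by
  classical
  obtain ⟨hy, F, hF, hbig⟩ := h
  have hBpos : (0 : ℝ) < B := by exact_mod_cast hB1
  obtain ⟨G, hG⟩ : ∃ G, G = F.filter fun l => 5 ≤ l := ⟨_, rfl⟩
  have hsub : F ⊆ G ∪ {2, 3} := by
    intro l hl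
    rw [Finset.mem_union, hG, Finset.mem_filter, Finset.mem_insert, Finset.mem_singleton]
    by_cases h5 : 5 ≤ l
    · exact Or.inl ⟨hl, h5⟩
    · right
      have hp := (hF l hl).1
      have h2 := hp.two_le
      have h4 : l ≠ 4 := by
        rintro rfl
        revert hp
        decide
      omega
  have hpos : ∀ l ∈ G ∪ {2, 3}, 1 ≤ l := by
    intro l hl
    rw [Finset.mem_union, hG, Finset.mem_filter, Finset.mem_insert, Finset.mem_singleton] at hl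
    omega
  have h1 : ∏ l ∈ F, l ≤ (∏ l ∈ G, l) * 6 := by
    have e1 : ∏ l ∈ F, l ≤ ∏ l ∈ G ∪ {2, 3}, l :=
      Finset.prod_le_prod_of_subset_of_one_le' hsub fun l hl _ => hpos l hl
    have e2 : ∏ l ∈ G ∪ {2, 3}, l ≤ (∏ l ∈ G, l) * ∏ l ∈ ({2, 3} : Finset ℕ), l := by
      rw [← Finset.prod_union_inter]
      refine Nat.le_mul_of_pos_right _ (Finset.prod_pos fun l hl => ?_)
      exact hpos l (Finset.mem_union_left _ (Finset.mem_inter.mp hl).1)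
    refine e1.trans (e2.trans (le_of_eq ?_))
    congr 1
  refine ⟨G, fun l hl => ?_, ?_⟩
  · rw [hG, Finset.mem_filter] at hl
    exact ⟨(hF l hl.1).1, (hF l hl.1).2.1, (hF l hl.1).2.2, hl.2⟩
  · have h4 : (B : ℝ) ^ η ≤ ((∏ l ∈ G, l : ℕ) : ℝ) * (B : ℝ) ^ (η / 2) := by
      refine hbig.trans ?_
      have h5 : ((∏ l ∈ F, l : ℕ) : ℝ) ≤ ((∏ l ∈ G, l : ℕ) : ℝ) * 6 := by exact_mod_cast h1
      exact h5.trans (mul_le_mul_of_nonneg_left h6 (Nat.cast_nonneg _))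
    have h5 : (B : ℝ) ^ η = (B : ℝ) ^ (η / 2) * (B : ℝ) ^ (η / 2) := by
      rw [← Real.rpow_add hBpos]
      congr 1
      ring
    rw [h5] at h4
    exact le_of_mul_le_mul_right h4 (by positivity)

theorem threshold (δ c : ℝ) (hδ : 0 < δ) : ∃ B₀ : ℕ, 1 ≤ B₀ ∧ ∀ B : ℕ, B₀ ≤ B →
    6 ≤ (B : ℝ) ^ δ ∧ c ≤ δ * Real.log B := by
  have h1 : Filter.Tendsto (fun B : ℕ => (B : ℝ) ^ δ) Filter.atTop Filter.atTop :=
    (tendsto_rpow_atTop hδ).comp tendsto_natCast_atTop_atTop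
  have h2 : Filter.Tendsto (fun B : ℕ => δ * Real.log (B : ℝ)) Filter.atTop Filter.atTop :=
    (Real.tendsto_log_atTop.comp tendsto_natCast_atTop_atTop).const_mul_atTop hδ
  obtain ⟨b1, h1'⟩ := Filter.eventually_atTop.mp (h1.eventually_ge_atTop 6)
  obtain ⟨b2, h2'⟩ := Filter.eventually_atTop.mp (h2.eventually_ge_atTop c)
  refine ⟨max (max b1 b2) 1, le_max_right _ _, fun B hB => ⟨h1' B ?_, h2' B ?_⟩⟩
  · exact (le_max_left b1 b2).trans ((le_max_left _ 1).trans hB)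
  · exact (le_max_right b1 b2).trans ((le_max_left _ 1).trans hB)

/-- the relative discriminant -/
noncomputable def rd (K L : Type) [Field K] [NumberField K] [Field L] [NumberField L]
    [Algebra K L] : ℝ := Real.log |(discr L : ℝ)| - Module.finrank K L * Real.log |(discr K : ℝ)|

theorem rd_nonneg (K L : Type) [Field K] [NumberField K] [Field L] [NumberField L]
    [Algebra K L] : 0 ≤ rd K L := by
  have := disc_ge K L
  unfold rd
  linarith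

/-- the height of the invariant is bounded by the product of the poles -/
theorem core (N : ℕ) {ε : ℝ} (hε : 0 < ε) (c : ℝ) : ∃ B₀ : ℕ, ∀ B : ℕ, B₀ ≤ B → 1 ≤ B →
    ∀ x y : ℤ, Many (ε / 8) B x y → |(x : ℝ)| ≤ (B : ℝ) ^ (N + 1) → |(y : ℝ)| ≤ (B : ℝ) ^ (N + 1) →
      ∃ Q : ℝ, c ≤ Q ∧ 0 ≤ Q ∧
        ∀ (L : Type) [Field L] [NumberField L] (E : WeierstrassCurve L), E.Δ ≠ 0 →
          E.c₄ ^ 3 / E.Δ = (x : L) / y →
            logHeight₁ (E.c₄ ^ 3 / E.Δ) ≤ Module.finrank ℚ L * (32 * (N + 1) / ε * Q) ∧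
            ∀ (K : Type) [Field K] [NumberField K] [Algebra K L],
              Module.finrank K L * Q ≤ Real.log (multN E) + Real.log (addN E) + rd K L := by
  obtain ⟨B₀, h1, h0⟩ := threshold (ε / 16) c (by positivity)
  refine ⟨B₀, fun B hB hB1 x y hM hx hy => ?_⟩
  obtain ⟨h6, hc⟩ := h0 B hB
  have e : ε / 16 = ε / 8 / 2 := by ring
  have h6' := h6
  rw [e] at h6'
  obtain ⟨F, hF, hbig⟩ := many_five hM hB1 h6'
  rw [← e] at hbig
  have hBpos : (0 : ℝ) < B := by exact_mod_cast hB1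
  have hB1' : (1 : ℝ) ≤ B := by exact_mod_cast hB1
  have hQ : ε / 16 * Real.log B ≤ Real.log ((∏ l ∈ F, l : ℕ) : ℝ) := by
    rw [← Real.log_rpow hBpos]
    exact Real.log_le_log (by positivity) hbig
  have hlB : 0 ≤ Real.log B := Real.log_nonneg hB1'
  refine ⟨Real.log ((∏ l ∈ F, l : ℕ) : ℝ), hc.trans hQ, le_trans (by positivity) hQ,
    fun L _ _ E hE hj => ⟨?_, fun K _ _ _ => ?_⟩⟩
  · have hx0 : x ≠ 0 := by
      rintro rfl
      have hne : F.Nonempty := by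
        rw [Finset.nonempty_iff_ne_empty]
        intro he
        rw [he, Finset.prod_empty, Nat.cast_one] at hbig
        linarith
      obtain ⟨l, hl⟩ := hne
      exact (hF l hl).2.2.1 (dvd_zero _)
    rw [hj]
    refine (ht_le L hx0 hM.1 hx hy).trans (mul_le_mul_of_nonneg_left ?_ (Nat.cast_nonneg _))
    rw [Real.log_pow, Nat.cast_add, Nat.cast_one]
    calc 2 * (((N : ℝ) + 1) * Real.log B) = 32 * (N + 1) / ε * (ε / 16 * Real.log B) := by
          field_simp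
          ring
      _ ≤ _ := mul_le_mul_of_nonneg_left hQ (by positivity)
  · exact cond_ge K E hE hM.1 hj F hF

/-- **Frey's inequality** for the unstable height -/
theorem frey (N : ℕ) {ε : ℝ} (hε : 0 < ε) (c₀ : ℝ) : ∃ B₀ : ℕ, ∀ B : ℕ, B₀ ≤ B → 1 ≤ B →
    ∀ x y : ℤ, Many (ε / 8) B x y → |(x : ℝ)| ≤ (B : ℝ) ^ (N + 1) → |(y : ℝ)| ≤ (B : ℝ) ^ (N + 1) →
      ∀ (K L : Type) [Field K] [NumberField K] [Field L] [NumberField L] [Algebra K L]
        (E : WeierstrassCurve L) (τ : InfinitePlace L → UpperHalfPlane), E.Δ ≠ 0 →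
        E.c₄ ^ 3 / E.Δ = (x : L) / y → IsPeriod (E.c₄ ^ 3 / E.Δ) τ →
        (discSum E + ∑ w : InfinitePlace L, (w.mult : ℝ) * arch (τ w) + 6 * rd K L) /
          (12 * Module.finrank ℚ K) + c₀ * Module.finrank K L ≤
          (16 * (N + 1) / ε + 3) / 6 *
            (Real.log (multN E) + Real.log (addN E) + 2 * rd K L) := by
  obtain ⟨C, hC, hda⟩ := disc_arch_le
  obtain ⟨B₀, hB₀⟩ := core N hε (C + 12 * |c₀|)
  refine ⟨B₀, fun B hB hB1 x y hM hx hy K L _ _ _ _ _ E τ hE hj hτ => ?_⟩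
  obtain ⟨Q, hQ1, hQ0, hQ⟩ := hB₀ B hB hB1 x y hM hx hy
  obtain ⟨h1, h2⟩ := hQ L E hE hj
  have h2 := h2 K
  have h3 := hda L E τ hE hτ
  have h4 := rd_nonneg K L
  have h5 := log_multN_nonneg E hE
  have h6 : 0 ≤ Real.log (addN E) := by
    rw [log_addN E hE]
    have : 0 ≤ ∑ᶠ v : Pr L, aw v E := finsum_nonneg fun v => aw_nonneg v E
    linarith
  have hn : (Module.finrank ℚ L : ℝ) = Module.finrank ℚ K * Module.finrank K L := by
    rw [← Nat.cast_mul, Module.finrank_mul_finrank]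
  have hk : (1 : ℝ) ≤ Module.finrank ℚ K := by
    exact_mod_cast Module.finrank_pos (R := ℚ) (M := K)
  have hg : (0 : ℝ) ≤ Module.finrank K L := Nat.cast_nonneg _
  obtain ⟨k, hk'⟩ : ∃ k : ℝ, k = Module.finrank ℚ K := ⟨_, rfl⟩
  obtain ⟨g, hg'⟩ : ∃ g : ℝ, g = Module.finrank K L := ⟨_, rfl⟩
  obtain ⟨lm, hlm⟩ : ∃ lm : ℝ, lm = Real.log (multN E) := ⟨_, rfl⟩
  obtain ⟨la, hla⟩ : ∃ la : ℝ, la = Real.log (addN E) := ⟨_, rfl⟩
  obtain ⟨r, hr⟩ : ∃ r : ℝ, r = rd K L := ⟨_, rfl⟩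
  obtain ⟨σ, hσ⟩ : ∃ σ : ℝ, σ = 32 * (N + 1) / ε := ⟨_, rfl⟩
  have hσ0 : 0 ≤ σ := by rw [hσ]; positivity
  rw [hn] at h1 h3
  rw [← hk', ← hg', ← hσ] at h1
  rw [← hk', ← hg', ← hlm, ← hla] at h3
  rw [← hg', ← hlm, ← hla, ← hr] at h2
  rw [← hk'] at hk ⊢
  rw [← hg'] at hg ⊢
  rw [← hlm] at h5 ⊢
  rw [← hla] at h6 ⊢
  rw [← hr] at h4 ⊢
  have hκ : (16 * ((N : ℝ) + 1) / ε + 3) / 6 = (σ + 6) / 12 := by
    rw [hσ]
    field_simp
    ring
  rw [hκ]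
  obtain ⟨Λ, hΛ⟩ : ∃ Λ : ℝ, Λ = lm + la + 2 * r := ⟨_, rfl⟩
  rw [← hΛ]
  have hgQ : g * Q ≤ Λ := by rw [hΛ]; linarith
  have hΛ0 : 0 ≤ Λ := by rw [hΛ]; linarith
  have hk0 : 0 < k := by linarith
  have habs : c₀ ≤ |c₀| := le_abs_self c₀
  -- the total
  have hT : (discSum E + ∑ w : InfinitePlace L, (w.mult : ℝ) * arch (τ w) + 6 * r) ≤
      k * g * (σ * Q) + C * (k * g) + 5 * Λ := by
    rw [hΛ]
    nlinarith
  have hdiv : (discSum E + ∑ w : InfinitePlace L, (w.mult : ℝ) * arch (τ w) + 6 * r) / (12 * k) ≤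
      (g * (σ * Q) + C * g + 5 * Λ) / 12 := by
    rw [div_le_div_iff₀ (by positivity) (by norm_num)]
    have h7 : 5 * Λ ≤ 5 * Λ * k := by nlinarith
    nlinarith
  refine (add_le_add hdiv (mul_le_mul_of_nonneg_right habs hg)).trans ?_
  have h8 : (C + 12 * |c₀|) * g ≤ g * Q := by nlinarith
  have h9 : g * (σ * Q) ≤ σ * Λ := by nlinarith
  nlinarith

end Pool.Agent.N365.FH
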