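import Pool.Agent.N365.FH.D

/-!
# Frey's inequality from many poles: the stable height
-/

set_option autoImplicit false
set_option linter.unusedSectionVars false

namespace Pool.Agent.N365.FH

open NumberField IsDedekindDomain Height Pool.Agent.H691R3 Pool.Agent.W223.AK Pool.Agent.Y733.LS
open Pool.Agent.TH876.FH (GoodAt IsPeriod arch Hj_height)
open Pool.Agent.Y733.FF
open Pool.Agent.N365.HY (Many)

/-- the stable height is bounded by the height of the invariant -/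
theorem stable_le : ∃ C : ℝ, 0 ≤ C ∧ ∀ (K : Type) [Field K] [NumberField K]
    (E : WeierstrassCurve K) (τ : InfinitePlace K → UpperHalfPlane),
    IsPeriod (E.c₄ ^ 3 / E.Δ) τ →
    ∑ᶠ v : HeightOneSpectrum (𝓞 K), Real.log (max (FinitePlace.mk v (E.c₄ ^ 3 / E.Δ)) 1) +
      ∑ w : InfinitePlace K, (w.mult : ℝ) * arch (τ w) ≤
      logHeight₁ (E.c₄ ^ 3 / E.Δ) + C * Module.finrank ℚ K := by
  obtain ⟨c, hc0, hc⟩ := arch_le
  refine ⟨c, hc0, ?_⟩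
  intro K _ _ E τ hτ
  have h2 := hc K _ τ hτ
  have h4 : ht (E.c₄ ^ 3 / E.Δ) =
      ∑ w : InfinitePlace K, (w.mult : ℝ) * Real.log (max (w (E.c₄ ^ 3 / E.Δ)) 1) +
      ∑ᶠ v : HeightOneSpectrum (𝓞 K), Real.log (max (FinitePlace.mk v (E.c₄ ^ 3 / E.Δ)) 1) := by
    rw [← Hj_height, logHeight_eq, ht_eq_Sa]
  have h7 : logHeight₁ (E.c₄ ^ 3 / E.Δ) = ht (E.c₄ ^ 3 / E.Δ) := by
    rw [logHeight_eq, ht_eq_Sa]
  rw [h7, h4]
  linarith

theorem rd_rat (L : Type) [Field L] [NumberField L] : rd ℚ L = Real.log |(discr L : ℝ)| := by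
  unfold rd
  rw [Rat.numberField_discr]
  simp

/-- **Frey's inequality** for the stable height -/
theorem frey_stable (N : ℕ) {ε : ℝ} (hε : 0 < ε) (c₀ : ℝ) : ∃ B₀ : ℕ, ∀ B : ℕ, B₀ ≤ B → 1 ≤ B →
    ∀ x y : ℤ, Many (ε / 8) B x y → |(x : ℝ)| ≤ (B : ℝ) ^ (N + 1) → |(y : ℝ)| ≤ (B : ℝ) ^ (N + 1) →
      ∀ (L : Type) [Field L] [NumberField L]
        (E : WeierstrassCurve L) (τ : InfinitePlace L → UpperHalfPlane), E.Δ ≠ 0 →
        E.c₄ ^ 3 / E.Δ = (x : L) / y → IsPeriod (E.c₄ ^ 3 / E.Δ) τ →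
        0 ≤ Real.log (multN E) + Real.log (addN E) + 2 * Real.log |(discr L : ℝ)| ∧
        (∑ᶠ v : HeightOneSpectrum (𝓞 L), Real.log (max (FinitePlace.mk v (E.c₄ ^ 3 / E.Δ)) 1) +
          ∑ w : InfinitePlace L, (w.mult : ℝ) * arch (τ w)) / 12 + c₀ * Module.finrank ℚ L ≤
          (32 * (N + 1) / ε + 1) / 12 *
            (Real.log (multN E) + Real.log (addN E) + 2 * Real.log |(discr L : ℝ)|) := by
  obtain ⟨C, hC, hda⟩ := stable_le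
  obtain ⟨B₀, hB₀⟩ := core N hε (C + 12 * |c₀|)
  refine ⟨B₀, fun B hB hB1 x y hM hx hy L _ _ E τ hE hj hτ => ?_⟩
  obtain ⟨Q, hQ1, hQ0, hQ⟩ := hB₀ B hB hB1 x y hM hx hy
  obtain ⟨h1, h2⟩ := hQ L E hE hj
  have h2 := h2 ℚ
  have h3 := hda L E τ hτ
  have h4 := rd_nonneg ℚ L
  rw [rd_rat] at h2 h4
  have h5 := log_multN_nonneg E hE
  have h6 : 0 ≤ Real.log (addN E) := by
    rw [log_addN E hE]
    have : 0 ≤ ∑ᶠ v : Pr L, aw v E := finsum_nonneg fun v => aw_nonneg v E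
    linarith
  have hn : (0 : ℝ) ≤ Module.finrank ℚ L := Nat.cast_nonneg _
  refine ⟨by linarith, ?_⟩
  obtain ⟨n, hn'⟩ : ∃ n : ℝ, n = Module.finrank ℚ L := ⟨_, rfl⟩
  obtain ⟨σ, hσ⟩ : ∃ σ : ℝ, σ = 32 * (N + 1) / ε := ⟨_, rfl⟩
  have hσ0 : 0 ≤ σ := by rw [hσ]; positivity
  rw [← hσ] at h1 ⊢
  rw [← hn'] at h1 h2 h3 hn ⊢
  obtain ⟨Λ, hΛ⟩ : ∃ Λ : ℝ, Λ = Real.log (multN E) + Real.log (addN E) +
    2 * Real.log |(discr L : ℝ)| := ⟨_, rfl⟩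
  rw [← hΛ]
  have hnQ : n * Q ≤ Λ := by rw [hΛ]; linarith
  have habs : c₀ * n ≤ |c₀| * n := mul_le_mul_of_nonneg_right (le_abs_self c₀) hn
  have h8 : (C + 12 * |c₀|) * n ≤ n * Q := by nlinarith
  have h9 : n * (σ * Q) ≤ σ * Λ := by nlinarith
  linarith

end Pool.Agent.N365.FH
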